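import Pool.Agent.H526.FR.Surv

set_option autoImplicit false
set_option maxHeartbeats 4000000

/-! # The shift -/

namespace Pool.Agent.H526.FR

open Finset Filter
open Pool.Agent.H318R2.Cr (Pz V mem_Pz V_pos one_sub_inv_pos cz_bounds)
open Pool.Agent.TH101.RG (V0 class_count)
open Pool.Agent.H373R2.T7 (pz mem_pz sum_pz_le)

open scoped Classical

theorem count_cls (p T0 : ℕ) (hp : 0 < p) (c : ℤ) :
    ((Icc 1 T0).filter (fun t : ℕ => (p : ℤ) ∣ (t : ℤ) - c)).card ≤ T0 / p + 1 := by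
  refine le_trans (card_le_card ?_) (class_count p (c % p).toNat T0 hp)
  intro t ht
  rw [mem_filter, mem_Icc] at ht
  rw [mem_filter, mem_range]
  refine ⟨by omega, ?_⟩
  have hp0 : (0 : ℤ) < p := by exact_mod_cast hp
  have h1 : (t : ℤ) % p = c % p := Int.emod_eq_emod_iff_emod_sub_eq_zero.2 (Int.emod_eq_zero_of_dvd ht.2)
  have h2 : ((c % p).toNat : ℤ) = c % p := Int.toNat_of_nonneg (Int.emod_nonneg _ hp0.ne')
  have h3 : ((c % p).toNat % p : ℕ) = (c % p).toNat := by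
    apply Nat.mod_eq_of_lt
    have := Int.emod_lt_of_pos c hp0
    omega
  rw [h3]
  have h4 : ((t % p : ℕ) : ℤ) = ((c % p).toNat : ℤ) := by
    rw [h2, ← h1]
    push_cast
    rfl
  exact_mod_cast h4

/-- a good shift -/
theorem choose_t0 (z T0 : ℕ) (hT : 1 ≤ T0) (hz : 1 + Real.log z ≤ T0) (b : ℕ → ℤ) :
    ∃ t0 ∈ Icc 1 T0, ∑ p ∈ (Pz z).filter (fun p : ℕ => (p : ℤ) ∣ (t0 : ℤ) - b p), (1 : ℝ) / p ≤ 3 := by
  by_contra hcon
  push Not at hcon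
  have hT0 : (0 : ℝ) < T0 := by exact_mod_cast (by omega : 0 < T0)
  have h1 : (T0 : ℝ) * 3 < ∑ t0 ∈ Icc 1 T0, ∑ p ∈ (Pz z).filter (fun p : ℕ => (p : ℤ) ∣ (t0 : ℤ) - b p), (1 : ℝ) / p := by
    have h2 : ∑ t0 ∈ Icc 1 T0, (3 : ℝ) = (T0 : ℝ) * 3 := by
      rw [sum_const, Nat.card_Icc, nsmul_eq_mul, Nat.add_sub_cancel]
    rw [← h2]
    exact sum_lt_sum_of_nonempty ⟨1, mem_Icc.2 ⟨le_rfl, hT⟩⟩ hcon
  have h3 : ∑ t0 ∈ Icc 1 T0, ∑ p ∈ (Pz z).filter (fun p : ℕ => (p : ℤ) ∣ (t0 : ℤ) - b p), (1 : ℝ) / p =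
      ∑ p ∈ Pz z, (((Icc 1 T0).filter (fun t : ℕ => (p : ℤ) ∣ (t : ℤ) - b p)).card : ℝ) * (1 / p) := by
    simp_rw [sum_filter]
    rw [sum_comm]
    apply sum_congr rfl
    intro p _
    rw [← sum_filter, sum_const, nsmul_eq_mul]
  rw [h3] at h1
  have h4 : ∀ p ∈ Pz z, (((Icc 1 T0).filter (fun t : ℕ => (p : ℤ) ∣ (t : ℤ) - b p)).card : ℝ) * (1 / p) ≤
      T0 * (1 / (p : ℝ) ^ 2) + 1 / p := by
    intro p hp
    have hp0 := (mem_Pz.1 hp).1.pos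
    have hpr : (0 : ℝ) < p := by exact_mod_cast hp0
    have h5 : (((Icc 1 T0).filter (fun t : ℕ => (p : ℤ) ∣ (t : ℤ) - b p)).card : ℝ) ≤ ((T0 / p : ℕ) : ℝ) + 1 := by
      exact_mod_cast count_cls p T0 hp0 (b p)
    have h6 : ((T0 / p : ℕ) : ℝ) ≤ (T0 : ℝ) / p := Nat.cast_div_le
    calc (((Icc 1 T0).filter (fun t : ℕ => (p : ℤ) ∣ (t : ℤ) - b p)).card : ℝ) * (1 / p)
        ≤ ((T0 : ℝ) / p + 1) * (1 / p) := by gcongr; linarith
      _ = T0 * (1 / (p : ℝ) ^ 2) + 1 / p := by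
          field_simp
  have h7 := sum_le_sum h4
  rw [sum_add_distrib, ← mul_sum] at h7
  have h8 : ∑ p ∈ Pz z, 1 / (p : ℝ) ^ 2 ≤ 2 := by
    have h := sum_le_hasSum (Pz z) (fun n _ => by positivity) hasSum_zeta_two
    have h2 : Real.pi ^ 2 / 6 ≤ 2 := by
      have := Real.pi_lt_d2
      have h3 := Real.pi_pos
      nlinarith
    linarith
  have h9 : ∑ p ∈ Pz z, 1 / (p : ℝ) ≤ 1 + Real.log z := by
    refine le_trans (le_of_eq ?_) (sum_pz_le z)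
    apply sum_congr _ (fun _ _ => rfl)
    ext p
    rw [mem_pz, mem_Pz, and_comm]
  have h10 : (T0 : ℝ) * ∑ p ∈ Pz z, 1 / (p : ℝ) ^ 2 ≤ T0 * 2 := by gcongr
  linarith

end Pool.Agent.H526.FR
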