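import Pool.Graph.R_pool_sql_team_seeded_3997aac3.Q84.MB.D8
import Pool.Graph.R_seed8.TH101.RG.Sh
import Pool.Agent.H526.FR.Shift

set_option autoImplicit false
set_option maxHeartbeats 4000000

/-! # The residue class: all the classes modulo the small and the large primes are prescribed -/

namespace Pool.Agent.H526.FR

open Finset Filter
open Pool.Agent.H378R2
open Pool.Agent.H318R2.Cr (Pz mem_Pz)
open Pool.Agent.TH101.RG (V0 vfacts solve)
open Pool.Agent.H312R2.RG (cov_ev ev_ff)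
open Pool.Agent.H256R2.SC (ff)
open Pool.Agent.Q84.MB (VS vv)

open scoped Classical

theorem sum_union_le' (A B : Finset ℕ) : ∑ q ∈ A ∪ B, (1 : ℝ) / q ≤ ∑ q ∈ A, (1 : ℝ) / q + ∑ q ∈ B, (1 : ℝ) / q := by
  rw [← sum_union_inter]
  have : 0 ≤ ∑ q ∈ A ∩ B, (1 : ℝ) / q := sum_nonneg fun _ _ => by positivity
  linarith

/-- the class modulo `q` -/
noncomputable def rho (A y : ℕ) (R : Finset ℕ) (b : ℕ → ℤ) (t0 q : ℕ) : ℤ :=
  if V0 y < Real.log q ∧ (q : ℝ) * (Real.log y) ^ A ≤ y ∧ q ∉ R then (t0 : ℤ) else b q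

theorem aux_sq (D B : ℝ) (h1 : D ≤ B) (h2 : 1 ≤ B) : D ≤ B ^ 2 := by
  nlinarith

theorem aux_six (A : ℝ) (hA : 100 ≤ A) : 6 ≤ A ^ 2 := by
  nlinarith

theorem aux_half (B τ : ℝ) (hB : 0 < B) (h : B / 2 ≤ τ) : B ^ 2 ≤ 4 * τ ^ 2 := by
  nlinarith

theorem aux_four (L : ℝ) (h : 100 ≤ L) : (4 : ℝ) ≤ L ^ 2 := by
  nlinarith

theorem aux_mul (n κ : ℝ) (h : n ≤ 1) (hκ : 0 < κ) : n * κ ≤ κ := by
  nlinarith

theorem aux_ff (T A B D c : ℝ) (hT : 0 < T) (hA : 0 < A) (hB : 0 < B) (hD : 1 ≤ D) (hc : 0 < c)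
    (h : B ^ 2 ≤ c / 10 * A ^ 2) : 10 * T ≤ c * (T * A ^ 2 * D / B ^ 2) := by
  rw [mul_div_assoc', le_div_iff₀ (by positivity)]
  have h1 : 10 * T * B ^ 2 ≤ 10 * T * (c / 10 * A ^ 2) := by gcongr
  have h2 : T * (c * A ^ 2) ≤ T * (c * A ^ 2) * D := by
    have : 0 ≤ T * (c * A ^ 2) := by positivity
    exact le_mul_of_one_le_right this hD
  linarith [show c * (T * A ^ 2 * D) = T * (c * A ^ 2) * D by ring,
    show 10 * T * (c / 10 * A ^ 2) = T * (c * A ^ 2) by ring]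

theorem aux_H (T A B D c y L : ℝ) (hT : 0 < T) (hA : 0 < A) (hB : 0 < B) (hD : 0 < D) (hc : c ≤ 1 / 16000)
    (h2 : D ≤ B ^ 2) (hy : T / 2000 ≤ y) (hL : A / 2 ≤ L) :
    2 * (c * (T * A ^ 2 * D / B ^ 2)) ≤ y * L ^ 2 := by
  have hy0 : 0 ≤ y := le_trans (by positivity) hy
  have h1 : T / 2000 * (A / 2) ^ 2 ≤ y * L ^ 2 := by gcongr
  refine le_trans ?_ h1
  rw [mul_div_assoc', mul_div_assoc', div_le_iff₀ (by positivity)]
  have h3 : c * (T * A ^ 2 * D) ≤ 1 / 16000 * (T * A ^ 2 * B ^ 2) := by gcongr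
  linarith [show T / 2000 * (A / 2) ^ 2 * B ^ 2 = 2 * (1 / 16000 * (T * A ^ 2 * B ^ 2)) by ring]

theorem aux_pow (L E : ℝ) (hL : 100 ≤ L) (h : L ^ 4 ≤ E) : 2 * L + 12 ≤ E / 4 := by
  have h1 : (100 : ℝ) ^ 3 ≤ L ^ 3 := pow_le_pow_left₀ (by norm_num) hL 3
  have h2 : L ^ 4 = L ^ 3 * L := by ring
  have h3 : (100 : ℝ) ^ 3 * L ≤ L ^ 3 * L := by gcongr
  linarith

theorem aux_card (C T A B D c₂ c₁ W ω τ L F : ℝ) (hF : F = T * A ^ 2 * D / B ^ 2) (hC : 0 < C) (hT : 0 < T)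
    (hA : 0 < A) (hB : 0 < B) (hD : 0 < D)
    (hW : W ≤ c₂ * F) (hW0 : 0 ≤ W) (h2 : c₂ ≤ c₁ / (64 * C)) (hτ0 : 0 < τ) (hτ : τ ≤ B) (hL : A / 2 ≤ L)
    (hω : D / 2 ≤ ω) : C * (2 * W) * τ ^ 2 / (L ^ 2 * ω) ≤ c₁ / 4 * T := by
  have hc₂ : 0 ≤ c₂ * F := hW0.trans hW
  calc C * (2 * W) * τ ^ 2 / (L ^ 2 * ω)
      ≤ C * (2 * (c₂ * F)) * B ^ 2 / ((A / 2) ^ 2 * (D / 2)) := by gcongr
    _ = 16 * C * c₂ * T := by
        rw [hF]
        field_simp
        ring
    _ ≤ 16 * C * (c₁ / (64 * C)) * T := by gcongr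
    _ = c₁ / 4 * T := by
        field_simp
        ring

/-- **The class.** -/
theorem free_cls (A : ℕ) (C₁ c₁ : ℝ) (hC₁ : 0 ≤ C₁) (hc₁ : 0 < c₁) : ∃ c : ℝ, 0 < c ∧ ∀ᶠ X : ℝ in atTop,
    ∀ (ps : ℕ) (S : Finset ℕ), GoodS X S → ∀ R : Finset ℕ, (∀ q ∈ R, 1 ≤ q) →
    ∑ q ∈ R, (1 : ℝ) / q ≤ C₁ * ((Real.log (Real.log (Real.log X))) ^ 2 /
      ((Real.log (Real.log X)) ^ 2 * Real.log (Real.log (Real.log (Real.log X))))) →
    ∀ b : ℕ → ℤ, ∃ a W t0 : ℕ, c * ff X ≤ W ∧ ((2 * W : ℕ) : ℝ) ≤ (Real.log X) ^ 2 ∧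
      ((VS (WW X S ps) a (2 * W)).card : ℝ) ≤ c₁ * Real.log X ∧ 1 ≤ t0 ∧
      (t0 : ℝ) ≤ Real.exp (V0 (yy X)) / 4 ∧ Real.exp (V0 (yy X)) ≤ W ∧
      ∀ q ∈ PW X S ps, (q : ℤ) ∣ (a : ℤ) + W - rho A (yy X) R b t0 q := by
  obtain ⟨C, hC, y₀, hsv⟩ := surv A 3 (4 * (7 + C₁)) (by positivity)
  set c₂ : ℝ := min (1 / 16000) (c₁ / (64 * C)) with hc₂
  have hc₂0 : 0 < c₂ := lt_min (by norm_num) (by positivity)
  have hc₂1 : c₂ ≤ 1 / 16000 := min_le_left _ _
  have hc₂2 : c₂ ≤ c₁ / (64 * C) := min_le_right _ _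
  obtain ⟨A₀, hev⟩ := cov_ev (c₂ / 10) (by positivity)
  obtain ⟨y₃, hv⟩ := eventually_atTop.1 vfacts
  refine ⟨c₂ / 2, by positivity, ?_⟩
  have t1 := Real.tendsto_log_atTop
  have t2 : Tendsto (fun y : ℝ => Real.log (Real.log y)) atTop atTop := t1.comp t1
  filter_upwards [t2.eventually_ge_atTop A₀, t1.eventually_ge_atTop (2000 * ((y₀ : ℝ) + 2)),
    t1.eventually_ge_atTop (2000 * (|y₃| + 2)), ev_ff (2 * c₂) (by positivity), eventually_gt_atTop 0,
    t1.eventually_ge_atTop (2 / c₁)]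
    with X e1 e2 e4 e6 hX0 e7
  intro ps S hS R hR1 hRsum b
  set T := Real.log X with hT
  have hT0 : 0 < T := by
    have : (0 : ℝ) ≤ y₀ := Nat.cast_nonneg _
    linarith
  set A' := Real.log T with hA
  obtain ⟨a1, a2, a3, a4, a5, a6, a7, a8, a9⟩ := hev A' e1
  have hTe : T = Real.exp A' := by rw [hA, Real.exp_log hT0]
  set B := Real.log A' with hB
  set D' := Real.log B with hD
  have hff : ff X = T * A' ^ 2 * D' / B ^ 2 := by
    unfold Pool.Agent.H256R2.SC.ff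
    rfl
  have hA0' : 0 < A' := by linarith
  have hB0 : 0 < B := by linarith
  have hD0 : 0 < D' := by linarith
  -- y
  set y := yy X with hy
  have hyT : (y : ℝ) ≤ T / 1000 := Nat.floor_le (by positivity)
  have hyT2 : T / 2000 ≤ y := by
    have h1 : T / 1000 < (y : ℝ) + 1 := Nat.lt_floor_add_one _
    have h2 : 1 ≤ T / 2000 := by
      rw [le_div_iff₀ (by norm_num), hTe]; linarith
    linarith [show T / 1000 = T / 2000 + T / 2000 by ring]
  have hyy0 : y₀ ≤ y := by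
    have : (y₀ : ℝ) ≤ y := by linarith
    exact_mod_cast this
  have hyy3 : y₃ ≤ y := by
    have := le_abs_self y₃
    linarith
  obtain ⟨hv1, hv2, hv3⟩ := hv y hyy3
  have hy0 : (0 : ℝ) < y := by
    have : (0 : ℝ) ≤ y₀ := Nat.cast_nonneg _
    linarith
  have hly1 : Real.log y ≤ A' := by
    rw [hA]; apply Real.log_le_log hy0; linarith
  have hly2 : A' / 2 ≤ Real.log y := by
    have h1 : Real.log (T / 2000) ≤ Real.log y := Real.log_le_log (by positivity) hyT2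
    rw [Real.log_div hT0.ne' (by norm_num)] at h1
    linarith
  have hly0 : 0 < Real.log y := by linarith
  have hl2y1 : Real.log (Real.log y) ≤ B := Real.log_le_log hly0 hly1
  have hl2y2 : B / 2 ≤ Real.log (Real.log y) := by
    have h1 : Real.log (A' / 2) ≤ Real.log (Real.log y) := Real.log_le_log (by positivity) hly2
    rw [Real.log_div hA0'.ne' (by norm_num)] at h1
    linarith
  have hl2y0 : 0 < Real.log (Real.log y) := by linarith
  have hl3y2 : D' / 2 ≤ Real.log (Real.log (Real.log y)) := by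
    have h1 : Real.log (B / 2) ≤ Real.log (Real.log (Real.log y)) := Real.log_le_log (by positivity) hl2y2
    rw [Real.log_div hB0.ne' (by norm_num)] at h1
    linarith
  have hl3y1 : Real.log (Real.log (Real.log y)) ≤ D' := Real.log_le_log hl2y0 hl2y1
  have hl3y0 : 0 < Real.log (Real.log (Real.log y)) := by linarith
  have hy2 : 2 ≤ y := by
    have h1 : (2 : ℝ) ≤ y := by
      have : (0 : ℝ) ≤ y₀ := Nat.cast_nonneg _
      linarith
    exact_mod_cast h1
  -- W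
  set W : ℕ := ⌊c₂ * ff X⌋₊ with hW
  have hff0 : 0 ≤ c₂ * ff X := by rw [hff]; positivity
  have hWle : (W : ℝ) ≤ c₂ * ff X := Nat.floor_le hff0
  have hT1 : 10 * T ≤ c₂ * ff X := by
    rw [hff]
    exact aux_ff T A' B D' c₂ hT0 hA0' hB0 a4 hc₂0 a8
  have hT2000 : 2000 ≤ T := by rw [hTe]; exact a9
  have hyW : y ≤ W := by
    rw [hW]
    apply Nat.le_floor
    have : (y : ℝ) ≤ T := by linarith
    linarith
  have hyH : y ≤ 2 * W := by omega
  have hHy : ((2 * W : ℕ) : ℝ) ≤ y * (Real.log y) ^ 2 := by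
    push_cast
    have h0 : 2 * (W : ℝ) ≤ 2 * (c₂ * ff X) := by linarith
    refine h0.trans ?_
    rw [hff]
    exact aux_H T A' B D' c₂ y (Real.log y) hT0 hA0' hB0 hD0 hc₂1 (aux_sq D' B a6 a2) hyT2 hly2
  -- the shift
  set z : ℕ := ⌊Real.exp (V0 y)⌋₊ with hz
  have hexp : 2 * Real.log y + 12 ≤ Real.exp (V0 y) / 4 := aux_pow _ _ hv1 hv2
  obtain ⟨T0, hT0'⟩ : ∃ T0 : ℕ, T0 = ⌊Real.exp (V0 y) / 4⌋₊ := ⟨_, rfl⟩
  have hT0le : (T0 : ℝ) ≤ Real.exp (V0 y) / 4 := by rw [hT0']; exact Nat.floor_le (by positivity)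
  have hT0low : Real.exp (V0 y) / 4 < T0 + 1 := by rw [hT0']; exact Nat.lt_floor_add_one _
  have hz2 : 1 ≤ z := by
    rw [hz, Nat.le_floor_iff (Real.exp_pos _).le]
    push_cast
    linarith
  have hlogz : Real.log z ≤ Real.log y := by
    have h1 : (z : ℝ) ≤ Real.exp (V0 y) := Nat.floor_le (Real.exp_pos _).le
    have h2 := Real.log_le_log (by exact_mod_cast hz2) h1
    rw [Real.log_exp] at h2
    linarith
  have hT01 : 1 ≤ T0 := by
    have : (1 : ℝ) ≤ T0 := by linarith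
    exact_mod_cast this
  obtain ⟨t0, ht0, ht0sum⟩ := choose_t0 z T0 hT01 (by linarith) b
  rw [mem_Icc] at ht0
  have ht0le : (t0 : ℝ) ≤ Real.exp (V0 y) / 4 := le_trans (by exact_mod_cast ht0.2) hT0le
  have ht0W : t0 ≤ W := by
    have h1 : (t0 : ℝ) ≤ y := by
      have h2 : Real.exp (V0 y) ≤ y := (Real.exp_le_exp.2 hv3).trans_eq (Real.exp_log hy0)
      have := Real.exp_pos (V0 y)
      linarith
    have h2 : t0 ≤ y := by exact_mod_cast h1
    omega
  -- the exceptional sets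
  set Ps : Finset ℕ := if ps.Prime then {ps} else ∅ with hPs
  have hPs2 : ∀ q ∈ Ps, q = ps ∧ ps.Prime := by
    intro q hq
    rw [hPs] at hq
    split_ifs at hq with h
    · exact ⟨mem_singleton.1 hq, h⟩
    · simp at hq
  set F : Finset ℕ := S ∪ Ps with hF
  set G : Finset ℕ := (S ∪ Ps.filter (fun q : ℕ => V0 y < Real.log q)) ∪ R with hG
  have hFp : ∀ q ∈ F, q.Prime := by
    intro q hq
    rcases mem_union.1 hq with h | h
    · exact (hS.1 q h).1
    · obtain ⟨h1, h2⟩ := hPs2 q h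
      rw [h1]; exact h2
  have hSsum : ∑ q ∈ S, (1 : ℝ) / q ≤ 6 / A' ^ 2 := hS.2
  have hA100 : 100 ≤ A' := by linarith
  have hPs1 : Ps.card ≤ 1 := by
    rw [hPs]
    split_ifs <;> simp
  have hFsum : ∑ q ∈ F, (1 : ℝ) / q ≤ 3 := by
    refine (sum_union_le' _ _).trans ?_
    have h2 : ∑ q ∈ Ps, (1 : ℝ) / q ≤ 1 := by
      rw [hPs]
      split_ifs with h
      · rw [sum_singleton, div_le_one (by exact_mod_cast h.pos)]
        exact_mod_cast h.one_lt.le
      · simp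
    have h3 : ∑ q ∈ S, (1 : ℝ) / q ≤ 1 := by
      refine hSsum.trans ?_
      rw [div_le_one (by positivity)]
      exact aux_six A' hA100
    linarith
  have hG1 : ∀ q ∈ G, 1 ≤ q := by
    intro q hq
    rw [hG, mem_union, mem_union, mem_filter] at hq
    rcases hq with (h | h) | h
    · exact (hFp q (mem_union_left _ h)).pos
    · exact (hFp q (mem_union_right _ h.1)).pos
    · exact hR1 q h
  -- the size of the exceptional set of the large primes
  set κ : ℝ := B ^ 2 / (A' ^ 2 * D') with hκ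
  have hκ0 : 0 < κ := by positivity
  have hκle : κ ≤ 4 * ((Real.log (Real.log y)) ^ 2 / ((Real.log y) ^ 2 * Real.log (Real.log (Real.log y)))) := by
    rw [hκ, mul_div_assoc', div_le_div_iff₀ (by positivity) (by positivity)]
    have h1 : B ^ 2 ≤ 4 * (Real.log (Real.log y)) ^ 2 := aux_half B _ hB0 hl2y2
    have h2 : (Real.log y) ^ 2 * Real.log (Real.log (Real.log y)) ≤ A' ^ 2 * D' := by gcongr
    calc B ^ 2 * ((Real.log y) ^ 2 * Real.log (Real.log (Real.log y))) ≤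
        (4 * (Real.log (Real.log y)) ^ 2) * (A' ^ 2 * D') := by gcongr
      _ = _ := by ring
  have hDB : D' ≤ B ^ 2 := aux_sq D' B a6 a2
  have hGsum : ∑ q ∈ G, (1 : ℝ) / q ≤ (4 * (7 + C₁)) * ((Real.log (Real.log y)) ^ 2 /
      ((Real.log y) ^ 2 * Real.log (Real.log (Real.log y)))) := by
    have h1 : ∑ q ∈ S, (1 : ℝ) / q ≤ 6 * κ := by
      refine hSsum.trans ?_
      rw [hκ, mul_div_assoc', div_le_div_iff₀ (by positivity) (by positivity)]
      calc 6 * (A' ^ 2 * D') ≤ 6 * (A' ^ 2 * B ^ 2) := by gcongr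
        _ = _ := by ring
    have h2 : ∑ q ∈ Ps.filter (fun q : ℕ => V0 y < Real.log q), (1 : ℝ) / q ≤ κ := by
      have h4 : ∀ q ∈ Ps.filter (fun q : ℕ => V0 y < Real.log q), (1 : ℝ) / q ≤ κ := by
        intro q hq
        rw [mem_filter] at hq
        obtain ⟨h5, h6⟩ := hPs2 q hq.1
        have hq0 : (0 : ℝ) < q := by rw [h5]; exact_mod_cast h6.pos
        have h7 : Real.exp (V0 y) < q := (Real.lt_log_iff_exp_lt hq0).1 hq.2
        have h8 : (Real.log y) ^ 4 ≤ q := by linarith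
        have h9 : A' ^ 2 ≤ q := by
          have h10 : A' ^ 2 ≤ (2 * Real.log y) ^ 2 := by gcongr; linarith
          have h11 : (2 * Real.log y) ^ 2 ≤ (Real.log y) ^ 4 := by
            have : 4 ≤ (Real.log y) ^ 2 := aux_four _ hv1
            calc (2 * Real.log y) ^ 2 = 4 * (Real.log y) ^ 2 := by ring
              _ ≤ (Real.log y) ^ 2 * (Real.log y) ^ 2 := by gcongr
              _ = _ := by ring
          linarith
        rw [hκ, div_le_div_iff₀ hq0 (by positivity), one_mul]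
        calc A' ^ 2 * D' ≤ q * B ^ 2 := by gcongr
          _ = B ^ 2 * q := by ring
      refine (sum_le_card_nsmul _ _ _ h4).trans ?_
      rw [nsmul_eq_mul]
      have h5 : ((Ps.filter (fun q : ℕ => V0 y < Real.log q)).card : ℝ) ≤ 1 := by
        exact_mod_cast (card_filter_le _ _).trans hPs1
      exact aux_mul _ κ h5 hκ0
    have h3 : ∑ q ∈ R, (1 : ℝ) / q ≤ C₁ * κ := hRsum
    calc ∑ q ∈ G, (1 : ℝ) / q ≤ (∑ q ∈ S, (1 : ℝ) / q + ∑ q ∈ Ps.filter (fun q : ℕ => V0 y < Real.log q), (1 : ℝ) / q) +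
          ∑ q ∈ R, (1 : ℝ) / q := by
          refine (sum_union_le' _ _).trans ?_
          apply add_le_add_left
          exact sum_union_le' _ _
      _ ≤ (7 + C₁) * κ := by linarith
      _ ≤ (7 + C₁) * (4 * ((Real.log (Real.log y)) ^ 2 / ((Real.log y) ^ 2 * Real.log (Real.log (Real.log y))))) := by
          gcongr
      _ = _ := by ring
  -- the residues
  have hρ : ∀ q : ℕ, ∃ ρ : ℕ, q ∈ PW X S ps → (q : ℤ) ∣ (ρ : ℤ) + (W - rho A y R b t0 q) := by
    intro q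
    by_cases hq : q ∈ PW X S ps
    · have hqp := (mem_PW.1 hq).2.1
      obtain ⟨ρ, hρ⟩ := solve q hqp 1 (W - rho A y R b t0 q) (fun h => by
        have h2 : q ∣ 1 := by exact_mod_cast h
        exact hqp.one_lt.ne' (Nat.dvd_one.1 h2))
      rw [one_mul] at hρ
      exact ⟨ρ, fun _ => hρ⟩
    · exact ⟨0, fun h => absurd h hq⟩
  choose ρ hρ using hρ
  obtain ⟨a, ha⟩ := Nat.chineseRemainderOfFinset ρ (fun p => p) (PW X S ps)
    (fun p hp => (mem_PW.1 hp).2.1.ne_zero)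
    (fun p hp q hq hpq => (Nat.coprime_primes (mem_PW.1 (by simpa using hp)).2.1
      (mem_PW.1 (by simpa using hq)).2.1).2 hpq)
  have haρ : ∀ q ∈ PW X S ps, (q : ℤ) ∣ (a : ℤ) + W - rho A y R b t0 q := by
    intro q hq
    have h1 : (q : ℤ) ∣ (a : ℤ) - ρ q := Nat.modEq_iff_dvd.1 (ha q hq).symm
    have h2 := dvd_add h1 (hρ q hq)
    have e : (a : ℤ) - ρ q + ((ρ q : ℤ) + (W - rho A y R b t0 q)) = (a : ℤ) + W - rho A y R b t0 q := by ring
    rwa [e] at h2
  have hexpy : Real.exp (V0 y) ≤ y := (Real.exp_le_exp.2 hv3).trans_eq (Real.exp_log hy0)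
  refine ⟨a, W, t0, ?_, ?_, ?_, ht0.1, ht0le, hexpy.trans (by exact_mod_cast hyW), haρ⟩
  · have h1 : c₂ * ff X < (W : ℝ) + 1 := Nat.lt_floor_add_one _
    linarith
  · push_cast
    have := e6.1
    linarith
  -- the count
  have hnd : ∀ v ∈ VS (WW X S ps) a (2 * W), ∀ p ∈ PW X S ps, ¬ (p : ℤ) ∣ (a : ℤ) + v := by
    intro v hv' p hp hd
    unfold VS at hv'
    rw [mem_filter] at hv'
    have hpp := (mem_PW.1 hp).2.1
    have h1 : p ∣ a + v := by exact_mod_cast hd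
    exact Nat.Prime.not_coprime_iff_dvd.2 ⟨p, hpp, h1, (prime_dvd_WW hpp).2 hp⟩ hv'.2
  have hLA : 1 ≤ (Real.log y) ^ A := one_le_pow₀ (by linarith)
  have hmed : ∀ p : ℕ, p.Prime → V0 y < Real.log p → (p : ℝ) * (Real.log y) ^ A ≤ y → p ∉ G →
      p ∈ PW X S ps ∧ rho A y R b t0 p = t0 := by
    intro p hp h1 h2 h3
    rw [hG, mem_union, mem_union, mem_filter, not_or, not_or] at h3
    obtain ⟨⟨h4, h5⟩, h6⟩ := h3
    refine ⟨mem_PW.2 ⟨?_, hp, h4, ?_⟩, ?_⟩
    · have h7 : (p : ℝ) ≤ y := by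
        have h8 : (p : ℝ) ≤ p * (Real.log y) ^ A := le_mul_of_one_le_right (Nat.cast_nonneg _) hLA
        linarith
      exact_mod_cast h7
    · rintro rfl
      apply h5
      refine ⟨?_, h1⟩
      rw [hPs, if_pos hp]
      simp
    · unfold rho
      rw [if_pos ⟨h1, h2, h6⟩]
  have hsmall : ∀ p : ℕ, p.Prime → Real.log p ≤ V0 y → p ∉ F →
      p ∈ PW X S ps ∧ rho A y R b t0 p = b p := by
    intro p hp h1 h3
    rw [hF, mem_union, not_or] at h3
    obtain ⟨h4, h5⟩ := h3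
    have hp0 : (0 : ℝ) < p := by exact_mod_cast hp.pos
    refine ⟨mem_PW.2 ⟨?_, hp, h4, ?_⟩, ?_⟩
    · have h7 : (p : ℝ) ≤ y := by
        rw [← Real.exp_log hp0, ← Real.exp_log hy0]
        exact Real.exp_le_exp.2 (h1.trans hv3)
      exact_mod_cast h7
    · rintro rfl
      apply h5
      rw [hPs, if_pos hp]
      simp
    · unfold rho
      rw [if_neg (fun h => absurd h.1 (not_lt.2 h1))]
  obtain ⟨VSa, hVSa⟩ : ∃ VSa : Finset ℕ, VSa = VS (WW X S ps) a (2 * W) := ⟨_, rfl⟩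
  rw [← hVSa] at hnd ⊢
  have hVr : ∀ v ∈ VSa, v ≤ 2 * W := by
    intro v hv'
    rw [hVSa] at hv'
    unfold VS at hv'
    rw [mem_filter, mem_range] at hv'
    omega
  have hpos := hsv y hyy0 F G hFp hFsum hG1 hGsum (fun p => (t0 : ℤ) - b p) ht0sum (2 * W) hyH hHy
  have hneg := hsv y hyy0 F G hFp hFsum hG1 hGsum (fun p => b p - (t0 : ℤ)) (by
    refine le_trans (le_of_eq ?_) ht0sum
    apply sum_congr _ (fun _ _ => rfl)
    apply filter_congr
    intro p _
    rw [dvd_sub_comm]) (2 * W) hyH hHy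
  have hP1 : ((VSa.filter (fun v => W < t0 + v)).card : ℝ) ≤ C * ((2 * W : ℕ) : ℝ) * (Real.log (Real.log y)) ^ 2 /
        ((Real.log y) ^ 2 * Real.log (Real.log (Real.log y))) := by
    refine le_trans (Nat.cast_le.2 ?_) hpos
    apply card_le_card_of_injOn (fun v => t0 + v - W)
    · intro v hv'
      rw [mem_coe, mem_filter] at hv'
      have h0 := hVr v hv'.1
      rw [mem_coe, mem_filter, mem_Icc]
      beta_reduce
      refine ⟨by omega, ?_, ?_⟩
      · intro p hp h1 h2 h3 h4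
        obtain ⟨h5, h6⟩ := hmed p hp h1 h2 h3
        apply hnd v hv'.1 p h5
        have h7 := haρ p h5
        rw [h6] at h7
        have h8 : (p : ℤ) ∣ ((t0 + v - W : ℕ) : ℤ) := Int.natCast_dvd_natCast.2 h4
        have h9 := dvd_add h7 h8
        have e : (a : ℤ) + W - t0 + ((t0 + v - W : ℕ) : ℤ) = a + v := by
          rw [Nat.cast_sub (by omega)]
          push_cast
          ring
        rwa [e] at h9
      · intro p hp h1 h3 h4
        obtain ⟨h5, h6⟩ := hsmall p hp h1 h3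
        apply hnd v hv'.1 p h5
        have h7 := haρ p h5
        rw [h6] at h7
        have h9 := dvd_add h7 h4
        have e : (a : ℤ) + W - b p + (((t0 + v - W : ℕ) : ℤ) - (t0 - b p)) = a + v := by
          rw [Nat.cast_sub (by omega)]
          push_cast
          ring
        rwa [e] at h9
    · intro v hv' v' hv'' h
      rw [mem_coe, mem_filter] at hv' hv''
      simp only at h
      omega
  have hN1 : ((VSa.filter (fun v => t0 + v < W)).card : ℝ) ≤ C * ((2 * W : ℕ) : ℝ) * (Real.log (Real.log y)) ^ 2 /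
        ((Real.log y) ^ 2 * Real.log (Real.log (Real.log y))) := by
    refine le_trans (Nat.cast_le.2 ?_) hneg
    apply card_le_card_of_injOn (fun v => W - (t0 + v))
    · intro v hv'
      rw [mem_coe, mem_filter] at hv'
      have h0 := hVr v hv'.1
      rw [mem_coe, mem_filter, mem_Icc]
      beta_reduce
      refine ⟨by omega, ?_, ?_⟩
      · intro p hp h1 h2 h3 h4
        obtain ⟨h5, h6⟩ := hmed p hp h1 h2 h3
        apply hnd v hv'.1 p h5
        have h7 := haρ p h5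
        rw [h6] at h7
        have h8 : (p : ℤ) ∣ ((W - (t0 + v) : ℕ) : ℤ) := Int.natCast_dvd_natCast.2 h4
        have h9 := dvd_sub h7 h8
        have e : (a : ℤ) + W - t0 - ((W - (t0 + v) : ℕ) : ℤ) = a + v := by
          rw [Nat.cast_sub (by omega)]
          push_cast
          ring
        rwa [e] at h9
      · intro p hp h1 h3 h4
        obtain ⟨h5, h6⟩ := hsmall p hp h1 h3
        apply hnd v hv'.1 p h5
        have h7 := haρ p h5
        rw [h6] at h7
        have h9 := dvd_sub h7 h4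
        have e : (a : ℤ) + W - b p - (((W - (t0 + v) : ℕ) : ℤ) - (b p - t0)) = a + v := by
          rw [Nat.cast_sub (by omega)]
          push_cast
          ring
        rwa [e] at h9
    · intro v hv' v' hv'' h
      rw [mem_coe, mem_filter] at hv' hv''
      simp only at h
      omega
  have hZ1 : (VSa.filter (fun v => t0 + v = W)).card ≤ 1 := by
    rw [card_le_one]
    intro v hv' v' hv''
    rw [mem_filter] at hv' hv''
    omega
  have hsplit : VSa.card ≤ (VSa.filter (fun v => W < t0 + v)).card +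
      ((VSa.filter (fun v => t0 + v < W)).card + (VSa.filter (fun v => t0 + v = W)).card) := by
    have h1 : VSa ⊆ (VSa.filter (fun v => W < t0 + v)) ∪
      ((VSa.filter (fun v => t0 + v < W)) ∪ (VSa.filter (fun v => t0 + v = W))) := by
      intro v hv'
      rw [mem_union, mem_union, mem_filter, mem_filter, mem_filter]
      rcases lt_trichotomy W (t0 + v) with h | h | h
      · exact Or.inl ⟨hv', h⟩
      · exact Or.inr (Or.inr ⟨hv', h.symm⟩)
      · exact Or.inr (Or.inl ⟨hv', h⟩)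
    refine (card_le_card h1).trans ((card_union_le _ _).trans ?_)
    apply Nat.add_le_add_left
    exact card_union_le _ _
  have hsplit' : (VSa.card : ℝ) ≤ (VSa.filter (fun v => W < t0 + v)).card +
      ((VSa.filter (fun v => t0 + v < W)).card + 1) := by
    have h1 : VSa.card ≤ (VSa.filter (fun v => W < t0 + v)).card +
      ((VSa.filter (fun v => t0 + v < W)).card + 1) := by omega
    exact_mod_cast h1
  have hcardle : C * ((2 * W : ℕ) : ℝ) * (Real.log (Real.log y)) ^ 2 /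
        ((Real.log y) ^ 2 * Real.log (Real.log (Real.log y))) ≤ c₁ / 4 * T := by
    push_cast
    exact aux_card C T A' B D' c₂ c₁ W _ _ _ (ff X) hff hC hT0 hA0' hB0 hD0 hWle (Nat.cast_nonneg _) hc₂2 hl2y0
      hl2y1 hly2 hl3y2
  have h1T : 1 ≤ c₁ / 2 * T := by
    rw [div_le_iff₀ hc₁] at e7
    linarith
  linarith

end Pool.Agent.H526.FR
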