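import Pool.Agent.H526.FR.Two

set_option autoImplicit false
set_option maxHeartbeats 4000000

/-! # The survivors when all the classes modulo the small and the large primes are prescribed -/

namespace Pool.Agent.H526.FR

open Finset Filter
open Pool.Agent.H318R2.Cr (Pz V mem_Pz V_pos one_sub_inv_pos cz_bounds)
open Pool.Agent.TH101.RG (V0)
open Pool.Agent.H398R2.RK (smooth_count mult_count)

open scoped Classical

theorem ev_facts (A K x0 : ℕ) (hK : 1 ≤ K) : ∀ᶠ y : ℕ in atTop,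
    100 ≤ Real.log y ∧ 1 ≤ Real.log (Real.log y) ∧ 1 ≤ Real.log (Real.log (Real.log y)) ∧
    Real.log (Real.log (Real.log y)) ≤ Real.log (Real.log y) ∧ 20 * Real.log (Real.log y) ≤ Real.log y ∧
    4 * K * Real.log (Real.log (Real.log y)) ≤ 10 * Real.log (Real.log y) ∧
    (Real.log y) ^ (A + 5) ≤ Real.exp (Real.log y / 4) ∧ ((x0 : ℝ) + 4) ≤ Real.exp (Real.log y / (4 * K)) := by
  have t0 : Tendsto (fun y : ℕ => Real.log (y : ℝ)) atTop atTop :=
    Real.tendsto_log_atTop.comp tendsto_natCast_atTop_atTop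
  have t1 : Tendsto (fun y : ℕ => Real.log (Real.log (y : ℝ))) atTop atTop := Real.tendsto_log_atTop.comp t0
  have t2 : Tendsto (fun y : ℕ => Real.log (Real.log (Real.log (y : ℝ)))) atTop atTop :=
    Real.tendsto_log_atTop.comp t1
  have hKr : (1 : ℝ) ≤ K := by exact_mod_cast hK
  have h1 := (Real.isLittleO_log_id_atTop).def (show (0 : ℝ) < 1 / 20 by norm_num)
  have h2 := (Real.isLittleO_log_id_atTop).def (show (0 : ℝ) < 10 / (4 * K) by positivity)
  have h3 : Tendsto (fun x : ℝ => Real.exp (x / 4) / x ^ (A + 5)) atTop atTop := by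
    have h4 := Real.tendsto_exp_div_pow_atTop (A + 5)
    have h5 : Tendsto (fun x : ℝ => x / 4) atTop atTop := tendsto_id.atTop_div_const (by norm_num)
    have h6 := h4.comp h5
    have h7 : Tendsto (fun x : ℝ => (1 / 4 : ℝ) ^ (A + 5) * (Real.exp (x / 4) / (x / 4) ^ (A + 5))) atTop atTop :=
      h6.const_mul_atTop (by positivity)
    refine h7.congr' ?_
    filter_upwards [eventually_gt_atTop (0 : ℝ)] with x hx
    rw [div_pow, div_pow, one_pow]
    field_simp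
  have h8 : Tendsto (fun y : ℕ => Real.exp (Real.log y / (4 * K))) atTop atTop :=
    Real.tendsto_exp_atTop.comp (t0.atTop_div_const (by positivity))
  filter_upwards [t0.eventually_ge_atTop 100, t1.eventually_ge_atTop 1, t2.eventually_ge_atTop 1,
    t0.eventually h1, t1.eventually h2, t0.eventually (h3.eventually_ge_atTop 1),
    h8.eventually_ge_atTop ((x0 : ℝ) + 4)] with y a1 a2 a3 a4 a5 a6 a7
  simp only [id, Real.norm_eq_abs] at a4 a5
  rw [abs_of_pos (by linarith), abs_of_pos (by linarith)] at a4 a5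
  refine ⟨a1, a2, a3, ?_, by linarith, ?_, ?_, a7⟩
  · exact (Real.log_le_sub_one_of_pos (by linarith)).trans (by linarith)
  · rw [div_mul_eq_mul_div, le_div_iff₀ (by positivity)] at a5
    linarith
  · rw [one_le_div (by positivity)] at a6
    exact a6

/-- the sum of `1 / φ(m)` -/
theorem sum_ratio : ∃ C : ℝ, 0 < C ∧ ∀ Y : ℕ, 1 ≤ Y →
    ∑ r ∈ Icc 1 Y, (1 / (r : ℝ)) * ((r : ℝ) / (Nat.totient r : ℝ)) ≤ C * (1 + Real.log Y) := by
  obtain ⟨C, hC, h⟩ := Pool.Agent.Helper112.sum_ratio_sq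
  refine ⟨C, hC, fun Y hY => le_trans (sum_le_sum fun r hr => ?_) (h Y hY)⟩
  rw [mem_Icc] at hr
  apply mul_le_mul_of_nonneg_left _ (by positivity)
  have h1 : (1 : ℝ) ≤ (r : ℝ) / (Nat.totient r : ℝ) := by
    rw [one_le_div (by exact_mod_cast Nat.totient_pos.2 (by omega))]
    exact_mod_cast Nat.totient_le r
  nlinarith

/-- **The survivors.** -/
theorem surv (A : ℕ) (C₀ C₁ : ℝ) (hC₁ : 0 ≤ C₁) : ∃ C : ℝ, 0 < C ∧ ∃ y₀ : ℕ, ∀ y : ℕ, y₀ ≤ y →
    ∀ F G : Finset ℕ, (∀ q ∈ F, q.Prime) → ∑ q ∈ F, (1 : ℝ) / q ≤ C₀ → (∀ q ∈ G, 1 ≤ q) →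
    ∑ q ∈ G, (1 : ℝ) / q ≤ C₁ * ((Real.log (Real.log y)) ^ 2 /
        ((Real.log y) ^ 2 * Real.log (Real.log (Real.log y)))) →
    ∀ a : ℕ → ℤ, ∑ p ∈ (Pz ⌊Real.exp (V0 y)⌋₊).filter (fun p : ℕ => (p : ℤ) ∣ a p), (1 : ℝ) / p ≤ C₀ →
    ∀ H : ℕ, y ≤ H → (H : ℝ) ≤ y * (Real.log y) ^ 2 →
      (((Icc 1 H).filter (fun t : ℕ =>
        (∀ p : ℕ, p.Prime → V0 y < Real.log p → (p : ℝ) * (Real.log y) ^ A ≤ y → p ∉ G → ¬ p ∣ t) ∧
        (∀ p : ℕ, p.Prime → Real.log p ≤ V0 y → p ∉ F → ¬ (p : ℤ) ∣ (t : ℤ) - a p))).card : ℝ) ≤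
      C * H * (Real.log (Real.log y)) ^ 2 /
        ((Real.log y) ^ 2 * Real.log (Real.log (Real.log y))) := by
  obtain ⟨K, x0, Cs, hK, hCs, hsieve⟩ := two_sieve
  obtain ⟨Cr, hCr, hratio⟩ := sum_ratio
  obtain ⟨y₁, hsm⟩ := smooth_count
  obtain ⟨y₂, hev⟩ := eventually_atTop.1 (ev_facts A K x0 hK)
  have hKr : (1 : ℝ) ≤ K := by exact_mod_cast hK
  refine ⟨C₁ + 2 + Cs * Real.exp (4 * C₀) * Cr * (A + 3) * (160 * K), by positivity,
    max y₂ ⌈max y₁ 1⌉₊, fun y hy F G hF hFsum hG hGsum a ha H hyH hHy => ?_⟩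
  obtain ⟨f1, f2, f3, f4, f5, f6, f7, f8⟩ := hev y ((le_max_left _ _).trans hy)
  have hy' : max y₁ 1 ≤ (y : ℝ) := (Nat.le_ceil _).trans (by exact_mod_cast (le_max_right _ _).trans hy)
  have hy1 : y₁ ≤ (y : ℝ) := (le_max_left _ _).trans hy'
  have hy0 : (0 : ℝ) < y := by linarith [(le_max_right y₁ 1).trans hy']
  have hyHr : (y : ℝ) ≤ H := by exact_mod_cast hyH
  have hH0 : (0 : ℝ) < H := by linarith
  have hsm' := hsm y hy1 H hyHr
  unfold V0 at ha ⊢
  set L := Real.log y with hL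
  set τ := Real.log L with hτ
  set ω := Real.log τ with hω
  have hL0 : 0 < L := by linarith
  have hτ0 : 0 < τ := by linarith
  have hω0 : 0 < ω := by linarith
  have hLe : (y : ℝ) = Real.exp L := by rw [hL, Real.exp_log hy0]
  have hLτ : L = Real.exp τ := by rw [hτ, Real.exp_log hL0]
  obtain ⟨W, hW⟩ : ∃ W : ℝ, W = L * ω / (10 * τ) := ⟨_, rfl⟩
  rw [← hW] at hsm' ha ⊢
  -- size of W
  have hW2 : 2 ≤ W := by
    rw [hW, le_div_iff₀ (by positivity)]
    nlinarith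
  have hWL : W ≤ L / (4 * K) := by
    rw [hW, div_le_div_iff₀ (by positivity) (by positivity)]
    nlinarith
  set z : ℕ := ⌊Real.exp W⌋₊ with hz
  set w : ℕ := ⌊Real.exp (L / (4 * K))⌋₊ with hw
  have hzw : z ≤ w := Nat.floor_le_floor (Real.exp_le_exp.2 hWL)
  have hz2 : 2 ≤ z := by
    rw [hz, Nat.le_floor_iff (Real.exp_pos _).le]
    push_cast
    have := Real.add_one_le_exp W
    linarith
  have hwx : x0 ≤ w := by
    rw [hw, Nat.le_floor_iff (Real.exp_pos _).le]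
    linarith
  have hlog2 : ∀ (x : ℝ) (n : ℕ), n = ⌊Real.exp x⌋₊ → 2 ≤ n → x / 2 ≤ Real.log n := by
    intro x n hn hn2
    have h7 : Real.exp x < n + 1 := by rw [hn]; exact Nat.lt_floor_add_one _
    have h8 : (2 : ℝ) ≤ n := by exact_mod_cast hn2
    have h9 : Real.exp x ≤ (n : ℝ) ^ 2 := by nlinarith
    have h10 := Real.log_le_log (Real.exp_pos _) h9
    rw [Real.log_exp, Real.log_pow] at h10
    push_cast at h10
    linarith
  have hlz : W / 2 ≤ Real.log z := hlog2 W z hz hz2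
  have hlw : L / (4 * K) / 2 ≤ Real.log w := hlog2 _ w hw (hz2.trans hzw)
  have hwK : (w : ℝ) ^ K ≤ Real.exp (L / 4) := by
    calc (w : ℝ) ^ K ≤ (Real.exp (L / (4 * K))) ^ K := by
          apply pow_le_pow_left₀ (Nat.cast_nonneg _)
          exact Nat.floor_le (Real.exp_pos _).le
      _ = Real.exp (L / 4) := by
          rw [← Real.exp_nat_mul]
          congr 1
          field_simp
  have hz_iff : ∀ p : ℕ, p.Prime → (p ≤ z ↔ Real.log p ≤ W) := by
    intro p hp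
    have hp0 : (0 : ℝ) < p := by exact_mod_cast hp.pos
    rw [hz, Nat.le_floor_iff (Real.exp_pos _).le, Real.log_le_iff_le_exp hp0]
  -- the cofactor
  set M : ℕ := ⌊L ^ (A + 2)⌋₊ with hM
  have hM1 : 1 ≤ M := by
    rw [hM, Nat.le_floor_iff (by positivity)]
    push_cast
    exact one_le_pow₀ (by linarith)
  have hMle : (M : ℝ) ≤ L ^ (A + 2) := Nat.floor_le (by positivity)
  have hlogM : 1 + Real.log M ≤ (A + 3) * τ := by
    have h1 : Real.log M ≤ Real.log (L ^ (A + 2)) :=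
      Real.log_le_log (by exact_mod_cast hM1) hMle
    rw [Real.log_pow, ← hτ] at h1
    push_cast at h1
    linarith
  -- the covering
  set T : ℕ → Finset ℕ := fun m => ((Icc 1 (H / m)).filter (fun n : ℕ => (∀ p : ℕ, p.Prime → p ≤ w → ¬ p ∣ n) ∧
      ∀ p : ℕ, p.Prime → p ≤ z → p ∉ F → ¬ (p : ℤ) ∣ (m : ℤ) * n - a p)).image (fun n => n * m) with hT
  have hcov : (Icc 1 H).filter (fun t : ℕ =>
        (∀ p : ℕ, p.Prime → W < Real.log p → (p : ℝ) * L ^ A ≤ y → p ∉ G → ¬ p ∣ t) ∧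
        (∀ p : ℕ, p.Prime → Real.log p ≤ W → p ∉ F → ¬ (p : ℤ) ∣ (t : ℤ) - a p)) ⊆
      ((Icc 1 H).filter (fun k => ∃ s ∈ G, s ∣ k)) ∪
      (((Icc 1 H).filter (fun m => ∀ p : ℕ, p.Prime → p ∣ m → Real.log p ≤ W)) ∪ (Icc 1 M).biUnion T) := by
    intro t ht
    rw [mem_filter] at ht
    obtain ⟨htH, ht1, ht2⟩ := ht
    rw [mem_union, mem_union]
    by_cases hA1 : ∃ s ∈ G, s ∣ t
    · exact Or.inl (mem_filter.2 ⟨htH, hA1⟩)
    right
    push Not at hA1
    by_cases hB1 : ∀ p : ℕ, p.Prime → p ∣ t → Real.log p ≤ W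
    · exact Or.inl (mem_filter.2 ⟨htH, hB1⟩)
    right
    push Not at hB1
    obtain ⟨q, hq, hqt, hWq⟩ := hB1
    have hqG : q ∉ G := fun h => hA1 q h hqt
    have hqy : (y : ℝ) < q * L ^ A := by
      by_contra hcon
      exact ht1 q hq hWq (not_lt.1 hcon) hqG hqt
    rw [mem_Icc] at htH
    obtain ⟨m, rfl⟩ := hqt
    have hm0 : m ≠ 0 := by rintro rfl; simp at htH
    have hm1 : 0 < m := Nat.pos_of_ne_zero hm0
    have hqw : w < q := by
      have h1 : (w : ℝ) * L ^ A < q * L ^ A := by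
        refine lt_of_le_of_lt ?_ hqy
        have h2 : (w : ℝ) ≤ Real.exp (L / 4) := by
          calc (w : ℝ) ≤ (w : ℝ) ^ K := le_self_pow₀ (by exact_mod_cast (by omega : 1 ≤ w)) (by omega)
            _ ≤ _ := hwK
        have h3 : L ^ A ≤ Real.exp (L / 4) := le_trans (pow_le_pow_right₀ (by linarith) (by omega)) f7
        calc (w : ℝ) * L ^ A ≤ Real.exp (L / 4) * Real.exp (L / 4) := by gcongr
          _ = Real.exp (L / 4 + L / 4) := (Real.exp_add _ _).symm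
          _ ≤ Real.exp L := Real.exp_le_exp.2 (by linarith)
          _ = y := hLe.symm
      have h2 : (w : ℝ) < q := lt_of_mul_lt_mul_right h1 (by positivity)
      exact_mod_cast h2
    have hmM : m ≤ M := by
      rw [hM, Nat.le_floor_iff (by positivity)]
      have h1 : (q : ℝ) * m ≤ y * L ^ 2 := by
        refine le_trans ?_ hHy
        exact_mod_cast htH.2
      have h2 : (y : ℝ) * m ≤ y * L ^ (A + 2) := by
        calc (y : ℝ) * m ≤ (q * L ^ A) * m := by gcongr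
          _ = (q * m) * L ^ A := by ring
          _ ≤ (y * L ^ 2) * L ^ A := by gcongr
          _ = y * L ^ (A + 2) := by ring
      exact le_of_mul_le_mul_left h2 hy0
    rw [mem_biUnion]
    refine ⟨m, mem_Icc.2 ⟨hm1, hmM⟩, ?_⟩
    rw [hT]
    simp only [mem_image, mem_filter, mem_Icc]
    refine ⟨q, ⟨⟨hq.pos, (Nat.le_div_iff_mul_le hm1).2 htH.2⟩, ?_, ?_⟩, rfl⟩
    · intro p hp hpw hpq
      have := (Nat.prime_dvd_prime_iff_eq hp hq).1 hpq
      omega
    · intro p hp hpz hpF hd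
      apply ht2 p hp ((hz_iff p hp).1 hpz) hpF
      push_cast
      rwa [mul_comm]
  -- the sum over the cofactor
  have hTcard : ((((Icc 1 M).biUnion T).card : ℕ) : ℝ) ≤
      Cs * Real.exp (4 * C₀) * Cr * (A + 3) * (160 * K) * (H * τ ^ 2 / (L ^ 2 * ω)) + M * Real.exp (L / 4) := by
    have hd0 : 0 < Real.log w * Real.log z := by
      apply mul_pos <;> apply Real.log_pos
      · exact_mod_cast (by omega : 1 < w)
      · exact_mod_cast (by omega : 1 < z)
    have e1 : ∀ m ∈ Icc 1 M, ((T m).card : ℝ) ≤ Cs * Real.exp (4 * C₀) * H / (Real.log w * Real.log z) *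
        ((1 / (m : ℝ)) * ((m : ℝ) / (Nat.totient m : ℝ))) + Real.exp (L / 4) := by
      intro m hm
      rw [mem_Icc] at hm
      have hmr : (0 : ℝ) < m := by exact_mod_cast (by omega : 0 < m)
      have h1 : ((T m).card : ℝ) ≤ (((Icc 1 (H / m)).filter (fun n : ℕ => (∀ p : ℕ, p.Prime → p ≤ w → ¬ p ∣ n) ∧
          ∀ p : ℕ, p.Prime → p ≤ z → p ∉ F → ¬ (p : ℤ) ∣ (m : ℤ) * n - a p)).card : ℝ) := by
        exact_mod_cast card_image_le
      refine h1.trans ((hsieve w z m hwx hz2 hzw hm.1 F C₀ a hF hFsum ha (H / m)).trans ?_)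
      apply add_le_add _ hwK
      have h2 : ((H / m : ℕ) : ℝ) ≤ (H : ℝ) / m := Nat.cast_div_le
      calc Cs * Real.exp (4 * C₀) * ((m : ℝ) / (Nat.totient m : ℝ)) * ((H / m : ℕ) : ℝ) / (Real.log w * Real.log z)
          ≤ Cs * Real.exp (4 * C₀) * ((m : ℝ) / (Nat.totient m : ℝ)) * ((H : ℝ) / m) / (Real.log w * Real.log z) := by
            gcongr
        _ = _ := by ring
    calc ((((Icc 1 M).biUnion T).card : ℕ) : ℝ) ≤ ∑ m ∈ Icc 1 M, ((T m).card : ℝ) := by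
          exact_mod_cast card_biUnion_le
      _ ≤ ∑ m ∈ Icc 1 M, (Cs * Real.exp (4 * C₀) * H / (Real.log w * Real.log z) *
        ((1 / (m : ℝ)) * ((m : ℝ) / (Nat.totient m : ℝ))) + Real.exp (L / 4)) := sum_le_sum e1
      _ = Cs * Real.exp (4 * C₀) * H / (Real.log w * Real.log z) *
        (∑ m ∈ Icc 1 M, (1 / (m : ℝ)) * ((m : ℝ) / (Nat.totient m : ℝ))) + M * Real.exp (L / 4) := by
          rw [sum_add_distrib, ← mul_sum, sum_const, Nat.card_Icc, nsmul_eq_mul, Nat.add_sub_cancel]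
      _ ≤ Cs * Real.exp (4 * C₀) * H / (Real.log w * Real.log z) * (Cr * ((A + 3) * τ)) + M * Real.exp (L / 4) := by
          have h1 := (hratio M hM1).trans (mul_le_mul_of_nonneg_left hlogM hCr.le)
          gcongr
      _ ≤ Cs * Real.exp (4 * C₀) * H / ((L / (4 * K) / 2) * (W / 2)) * (Cr * ((A + 3) * τ)) + M * Real.exp (L / 4) := by
          have hW0 : 0 < W := by linarith
          gcongr
      _ = _ := by
          rw [hW]
          field_simp
          ring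
  have hGc := mult_count G hG H
  have hcard := (card_le_card hcov).trans ((card_union_le _ _).trans (Nat.add_le_add_left (card_union_le _ _) _))
  have hcard' : ((((Icc 1 H).filter (fun t : ℕ =>
        (∀ p : ℕ, p.Prime → W < Real.log p → (p : ℝ) * L ^ A ≤ y → p ∉ G → ¬ p ∣ t) ∧
        (∀ p : ℕ, p.Prime → Real.log p ≤ W → p ∉ F → ¬ (p : ℤ) ∣ (t : ℤ) - a p))).card : ℕ) : ℝ) ≤
      (((Icc 1 H).filter (fun k => ∃ s ∈ G, s ∣ k)).card : ℝ) +
      ((((Icc 1 H).filter (fun m => ∀ p : ℕ, p.Prime → p ∣ m → Real.log p ≤ W)).card : ℝ) +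
        (((Icc 1 M).biUnion T).card : ℝ)) := by
    exact_mod_cast hcard
  refine hcard'.trans ?_
  have g1 : (H : ℝ) * ∑ q ∈ G, (1 : ℝ) / q ≤ C₁ * (H * τ ^ 2 / (L ^ 2 * ω)) := by
    calc (H : ℝ) * ∑ q ∈ G, (1 : ℝ) / q ≤ H * (C₁ * (τ ^ 2 / (L ^ 2 * ω))) := by gcongr
      _ = _ := by ring
  have g2 : (H : ℝ) / L ^ 3 ≤ H * τ ^ 2 / (L ^ 2 * ω) := by
    rw [div_le_div_iff₀ (by positivity) (by positivity)]
    have h1 : ω ≤ τ ^ 2 * L := by
      have h2 : τ ≤ τ ^ 2 := by nlinarith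
      have h3 : τ ^ 2 ≤ τ ^ 2 * L := le_mul_of_one_le_right (by positivity) (by linarith)
      linarith
    calc (H : ℝ) * (L ^ 2 * ω) ≤ H * (L ^ 2 * (τ ^ 2 * L)) := by gcongr
      _ = H * τ ^ 2 * L ^ 3 := by ring
  have g3 : (M : ℝ) * Real.exp (L / 4) ≤ H * τ ^ 2 / (L ^ 2 * ω) := by
    rw [le_div_iff₀ (by positivity)]
    have h1 : ω ≤ L := by linarith
    calc (M : ℝ) * Real.exp (L / 4) * (L ^ 2 * ω) ≤ L ^ (A + 2) * Real.exp (L / 4) * (L ^ 2 * L) := by gcongr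
      _ = L ^ (A + 5) * Real.exp (L / 4) := by ring
      _ ≤ Real.exp (L / 4) * Real.exp (L / 4) := by gcongr
      _ = Real.exp (L / 4 + L / 4) := (Real.exp_add _ _).symm
      _ ≤ Real.exp L := Real.exp_le_exp.2 (by linarith)
      _ = y := hLe.symm
      _ ≤ H := hyHr
      _ ≤ H * τ ^ 2 := le_mul_of_one_le_right hH0.le (one_le_pow₀ f2)
  have e : (C₁ + 2 + Cs * Real.exp (4 * C₀) * Cr * (A + 3) * (160 * K)) * H * τ ^ 2 / (L ^ 2 * ω) =
      C₁ * (H * τ ^ 2 / (L ^ 2 * ω)) + 2 * (H * τ ^ 2 / (L ^ 2 * ω)) +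
      Cs * Real.exp (4 * C₀) * Cr * (A + 3) * (160 * K) * (H * τ ^ 2 / (L ^ 2 * ω)) := by ring
  rw [e]
  linarith

end Pool.Agent.H526.FR
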