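import Pool.Graph.R_seed8.H373R2.T7.Fund
import Pool.Graph.R_seed8.Helper112.Arith
import Pool.Graph.R_seed8.TH101.RG.Surv
import Pool.Graph.R_seed8.TH101.RG.Cov

set_option autoImplicit false
set_option maxHeartbeats 4000000

/-! # An upper bound sieve: rough numbers which avoid one class modulo each small prime -/

namespace Pool.Agent.H526.FR

open Finset
open Pool.Agent.H373R2.T7 (nuB PerB sys_fund pz mem_pz nuB_le)
open Pool.Agent.H318R2.Cr (Pz V mem_Pz V_pos one_sub_inv_pos cz_bounds)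
open Pool.Agent.TH101.RG (solve inv_prod_le)

open scoped Classical

theorem prod_le_of_sub (A B : Finset ℕ) (h : A ⊆ B) (f : ℕ → ℝ) (hf : ∀ i ∈ B, 1 ≤ f i) :
    ∏ i ∈ A, f i ≤ ∏ i ∈ B, f i := by
  rw [← prod_sdiff h]
  have h1 : 1 ≤ ∏ i ∈ B \ A, f i := by
    have := Finset.prod_le_prod (s := B \ A) (f := fun _ => (1 : ℝ)) (g := f) (fun _ _ => zero_le_one)
      (fun i hi => hf i (mem_sdiff.1 hi).1)
    simpa using this
  have h2 : 0 ≤ ∏ i ∈ A, f i := prod_nonneg fun i hi => zero_le_one.trans (hf i (h hi))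
  nlinarith

theorem prod_union_le (A B : Finset ℕ) (f : ℕ → ℝ) (hf : ∀ i ∈ A ∪ B, 1 ≤ f i) :
    ∏ i ∈ A ∪ B, f i ≤ (∏ i ∈ A, f i) * ∏ i ∈ B, f i := by
  rw [← prod_union_inter]
  have h1 : 1 ≤ ∏ i ∈ A ∩ B, f i := by
    have := Finset.prod_le_prod (s := A ∩ B) (f := fun _ => (1 : ℝ)) (g := f) (fun _ _ => zero_le_one)
      (fun i hi => hf i (mem_union_left _ (mem_inter.1 hi).1))
    simpa using this
  have h2 : 0 ≤ ∏ i ∈ A ∪ B, f i := prod_nonneg fun i hi => zero_le_one.trans (hf i hi)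
  nlinarith

theorem one_le_inv {p : ℕ} (hp : p.Prime) : 1 ≤ (1 - 1 / (p : ℝ))⁻¹ := by
  have h := one_sub_inv_pos hp
  rw [one_le_inv₀ h]
  have : 0 < 1 / (p : ℝ) := by
    have : (0 : ℝ) < p := by exact_mod_cast hp.pos
    positivity
  linarith

theorem ratio_prod (m : ℕ) (hm : m ≠ 0) :
    ∏ p ∈ m.primeFactors, (1 - 1 / (p : ℝ))⁻¹ = (m : ℝ) / (Nat.totient m : ℝ) := by
  rw [Pool.Agent.Helper112.ratio_eq m hm]
  apply prod_congr rfl
  intro p hp
  have h2 := (Nat.prime_of_mem_primeFactors hp).two_le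
  have h2' : (2 : ℝ) ≤ p := by exact_mod_cast h2
  have : (p : ℝ) - 1 ≠ 0 := by linarith
  field_simp

/-- the sieving condition -/
def QQ (z m : ℕ) (F : Finset ℕ) (a : ℕ → ℤ) (p n : ℕ) : Prop :=
  p ∣ n ∨ ((p ≤ z ∧ p ∉ F ∧ ¬ p ∣ m) ∧ (p : ℤ) ∣ (m : ℤ) * n - a p)

theorem QQ_per (z m : ℕ) (F : Finset ℕ) (a : ℕ → ℤ) : PerB (QQ z m F a) 2 := by
  constructor
  · intro p n
    unfold QQ
    have h1 : (p ∣ n) ↔ p ∣ n % p := (Nat.dvd_mod_iff (dvd_refl p)).symm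
    have h2 : (p : ℤ) ∣ (m : ℤ) * n - a p ↔ (p : ℤ) ∣ (m : ℤ) * ((n % p : ℕ) : ℤ) - a p := by
      have e : (m : ℤ) * n - a p = p * (m * ((n / p : ℕ) : ℤ)) + ((m : ℤ) * ((n % p : ℕ) : ℤ) - a p) := by
        have h3 : (n : ℤ) = p * ((n / p : ℕ) : ℤ) + ((n % p : ℕ) : ℤ) := by
          exact_mod_cast (Nat.div_add_mod n p).symm
        calc (m : ℤ) * n - a p = m * (p * ((n / p : ℕ) : ℤ) + ((n % p : ℕ) : ℤ)) - a p := by rw [← h3]
          _ = _ := by ring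
      rw [e]
      exact (Int.dvd_add_right (dvd_mul_right _ _))
    rw [← h1, ← h2]
  · intro p hp
    unfold nuB
    have h1 : (range p).filter (fun r => QQ z m F a p r) ⊆ {0} ∪
        (range p).filter (fun r : ℕ => ¬ p ∣ m ∧ (p : ℤ) ∣ (m : ℤ) * r - a p) := by
      intro r hr
      rw [mem_filter, mem_range] at hr
      rw [mem_union, mem_singleton, mem_filter, mem_range]
      rcases hr.2 with h | h
      · left
        exact Nat.eq_zero_of_dvd_of_lt h hr.1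
      · right
        exact ⟨hr.1, h.1.2.2, h.2⟩
    have h2 : ((range p).filter (fun r : ℕ => ¬ p ∣ m ∧ (p : ℤ) ∣ (m : ℤ) * r - a p)).card ≤ 1 := by
      rw [card_le_one]
      intro r hr s hs
      rw [mem_filter, mem_range] at hr hs
      have h3 : (p : ℤ) ∣ (m : ℤ) * (r - s) := by
        have := dvd_sub hr.2.2 hs.2.2
        have e : (m : ℤ) * r - a p - ((m : ℤ) * s - a p) = (m : ℤ) * (r - s) := by ring
        rwa [e] at this
      have h4 : (p : ℤ) ∣ (r : ℤ) - s := by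
        rcases (Nat.prime_iff_prime_int.1 hp).dvd_or_dvd h3 with h | h
        · exact absurd (Int.natCast_dvd_natCast.1 h) hr.2.1
        · exact h
      have h5 : |(r : ℤ) - s| < p := by
        rw [abs_lt]
        have := hr.1
        have := hs.1
        constructor <;> omega
      have h6 := Int.eq_zero_of_abs_lt_dvd h4 h5
      omega
    refine (card_le_card h1).trans ((card_union_le _ _).trans ?_)
    rw [card_singleton]
    omega

/-- the sifted set is small -/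
theorem two_sieve : ∃ (K x0 : ℕ) (C : ℝ), 1 ≤ K ∧ 0 < C ∧ ∀ w z m : ℕ, x0 ≤ w → 2 ≤ z → z ≤ w → 1 ≤ m →
    ∀ (F : Finset ℕ) (C₀ : ℝ) (a : ℕ → ℤ), (∀ p ∈ F, p.Prime) → ∑ p ∈ F, (1 : ℝ) / p ≤ C₀ →
    ∑ p ∈ (Pz z).filter (fun p : ℕ => (p : ℤ) ∣ a p), (1 : ℝ) / p ≤ C₀ → ∀ X : ℕ,
    (((Icc 1 X).filter (fun n : ℕ => (∀ p : ℕ, p.Prime → p ≤ w → ¬ p ∣ n) ∧
      ∀ p : ℕ, p.Prime → p ≤ z → p ∉ F → ¬ (p : ℤ) ∣ (m : ℤ) * n - a p)).card : ℝ) ≤
      C * Real.exp (4 * C₀) * ((m : ℝ) / (Nat.totient m : ℝ)) * X / (Real.log w * Real.log z) + (w : ℝ) ^ K := by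
  obtain ⟨K, x0, hK, hfund⟩ := sys_fund 2 (by norm_num) 1 one_pos
  obtain ⟨c₁, c₂, hc₁, hc₁₂, hV⟩ := cz_bounds
  have hc₂ : 0 < c₂ := hc₁.trans_le hc₁₂
  refine ⟨K, x0, 2 * c₂ ^ 2, hK, by positivity, fun w z m hw hz hzw hm F C₀ a hFp hF ha X => ?_⟩
  have hw2 : 2 ≤ w := hz.trans hzw
  have hlw : 0 < Real.log w := Real.log_pos (by exact_mod_cast (by omega : 1 < w))
  have hlz : 0 < Real.log z := Real.log_pos (by exact_mod_cast (by omega : 1 < z))
  have h1 := hfund (w ^ K) w hw le_rfl (QQ z m F a) (QQ_per z m F a) X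
  set N := (((Icc 1 X).filter (fun n : ℕ => ∀ p ∈ pz w, ¬ QQ z m F a p n)).card : ℕ) with hN
  set Pr : ℝ := ∏ p ∈ pz w, (1 - (nuB (QQ z m F a) p : ℝ) / p) with hPr
  have hsub : (((Icc 1 X).filter (fun n : ℕ => (∀ p : ℕ, p.Prime → p ≤ w → ¬ p ∣ n) ∧
      ∀ p : ℕ, p.Prime → p ≤ z → p ∉ F → ¬ (p : ℤ) ∣ (m : ℤ) * n - a p)).card : ℝ) ≤ N := by
    rw [hN]
    apply Nat.cast_le.2
    apply card_le_card
    intro n hn
    rw [mem_filter] at hn ⊢
    refine ⟨hn.1, fun p hp hQ => ?_⟩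
    obtain ⟨h3, h4⟩ := mem_pz.1 hp
    rcases hQ with h | h
    · exact hn.2.1 p h4 h3 h
    · exact hn.2.2 p h4 h.1.1 h.1.2.1 h.2
  refine hsub.trans ?_
  have hsq : √((w ^ K : ℕ) : ℝ) ≤ (w : ℝ) ^ K := by
    rw [Real.sqrt_le_left (by positivity)]
    push_cast
    have : (1 : ℝ) ≤ (w : ℝ) ^ K := one_le_pow₀ (by exact_mod_cast (by omega : 1 ≤ w))
    nlinarith
  have h2 : (N : ℝ) ≤ 2 * (X * Pr) + (w : ℝ) ^ K := by
    have := (abs_le.1 h1).2
    linarith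
  refine h2.trans ?_
  apply add_le_add_left
  -- the good primes
  set G : Finset ℕ := (Pz z).filter (fun p => p ∉ F ∧ ¬ p ∣ m ∧ ¬ (p : ℤ) ∣ a p) with hG
  have hnu1 : ∀ p : ℕ, p.Prime → 1 ≤ nuB (QQ z m F a) p := by
    intro p hp
    unfold nuB
    apply card_pos.2
    refine ⟨0, ?_⟩
    rw [mem_filter, mem_range]
    exact ⟨hp.pos, Or.inl (dvd_zero p)⟩
  have hnu2 : ∀ p ∈ G, 2 ≤ nuB (QQ z m F a) p := by
    intro p hp
    rw [hG, mem_filter, mem_Pz] at hp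
    obtain ⟨⟨hpp, hpz⟩, hpF, hpm, hpa⟩ := hp
    obtain ⟨ρ, hρ⟩ := solve p hpp (m : ℤ) (-(a p)) (fun h => hpm (Int.natCast_dvd_natCast.1 h))
    have hper := (QQ_per z m F a).per p ρ
    have hQρ : QQ z m F a p ρ := Or.inr ⟨⟨hpz, hpF, hpm⟩, by rw [sub_eq_add_neg]; exact hρ⟩
    have hne : (0 : ℕ) ≠ ρ % p := by
      intro h0
      apply hpa
      have h3 : (p : ℤ) ∣ ρ := by
        exact_mod_cast (Nat.dvd_of_mod_eq_zero h0.symm)
      have h4 : (p : ℤ) ∣ (m : ℤ) * ρ := h3.mul_left _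
      have h5 := dvd_sub h4 hρ
      have e : (m : ℤ) * ρ - (m * ρ + -(a p)) = a p := by ring
      rwa [e] at h5
    unfold nuB
    rw [← card_pair hne]
    apply card_le_card
    intro r hr
    rw [mem_insert, mem_singleton] at hr
    rw [mem_filter, mem_range]
    rcases hr with rfl | rfl
    · exact ⟨hpp.pos, Or.inl (dvd_zero p)⟩
    · exact ⟨Nat.mod_lt _ hpp.pos, hper.1 hQρ⟩
  have hfac : ∀ p ∈ pz w, 0 ≤ 1 - (nuB (QQ z m F a) p : ℝ) / p ∧ 1 - (nuB (QQ z m F a) p : ℝ) / p ≤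
      (1 - 1 / (p : ℝ)) * (if p ∈ G then (1 - 1 / (p : ℝ)) else 1) := by
    intro p hp
    have hpp := (mem_pz.1 hp).2
    have hp0 : (0 : ℝ) < p := by exact_mod_cast hpp.pos
    constructor
    · have h3 : (nuB (QQ z m F a) p : ℝ) / p ≤ 1 := by
        rw [div_le_one hp0]
        exact_mod_cast nuB_le _ p
      linarith
    · split_ifs with h
      · have h3 : (2 : ℝ) ≤ nuB (QQ z m F a) p := by exact_mod_cast hnu2 p h
        have h4 : 2 * (1 / (p : ℝ)) ≤ (nuB (QQ z m F a) p : ℝ) / p := by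
          rw [mul_one_div]
          gcongr
        nlinarith [sq_nonneg (1 / (p : ℝ))]
      · have h3 : (1 : ℝ) ≤ nuB (QQ z m F a) p := by exact_mod_cast hnu1 p hpp
        have h4 : 1 / (p : ℝ) ≤ (nuB (QQ z m F a) p : ℝ) / p := by gcongr
        linarith
  have hGw : G ⊆ pz w := by
    intro p hp
    rw [hG, mem_filter, mem_Pz] at hp
    exact mem_pz.2 ⟨hp.1.2.trans hzw, hp.1.1⟩
  have hpzw : ∏ p ∈ pz w, (1 - 1 / (p : ℝ)) = V w := by
    unfold V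
    apply prod_congr _ (fun _ _ => rfl)
    ext p
    rw [mem_pz, mem_Pz, and_comm]
  have hPrle : Pr ≤ V w * ∏ p ∈ G, (1 - 1 / (p : ℝ)) := by
    rw [hPr, ← hpzw]
    refine (prod_le_prod (fun p hp => (hfac p hp).1) (fun p hp => (hfac p hp).2)).trans (le_of_eq ?_)
    rw [prod_mul_distrib]
    congr 1
    rw [← prod_filter]
    apply prod_congr _ (fun _ _ => rfl)
    ext p
    rw [mem_filter]
    exact ⟨fun h => h.2, fun h => ⟨hGw h, h⟩⟩
  -- the bad primes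
  have hGprod : ∏ p ∈ G, (1 - 1 / (p : ℝ)) = V z * ∏ p ∈ Pz z \ G, (1 - 1 / (p : ℝ))⁻¹ := by
    unfold V
    rw [← prod_sdiff (filter_subset (fun p => p ∉ F ∧ ¬ p ∣ m ∧ ¬ (p : ℤ) ∣ a p) (Pz z)), ← hG, prod_inv_distrib]
    have hne : ∏ p ∈ Pz z \ G, (1 - 1 / (p : ℝ)) ≠ 0 := by
      rw [prod_ne_zero_iff]
      intro p hp
      exact (one_sub_inv_pos (mem_Pz.1 (mem_sdiff.1 hp).1).1).ne'
    field_simp
  have hbad : ∏ p ∈ Pz z \ G, (1 - 1 / (p : ℝ))⁻¹ ≤ Real.exp (4 * C₀) * ((m : ℝ) / (Nat.totient m : ℝ)) := by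
    have hsub2 : Pz z \ G ⊆ (F ∪ (Pz z).filter (fun p : ℕ => (p : ℤ) ∣ a p)) ∪ m.primeFactors := by
      intro p hp
      rw [mem_sdiff, hG, mem_filter, not_and] at hp
      obtain ⟨h3, h4⟩ := hp
      rw [mem_union, mem_union, mem_filter, Nat.mem_primeFactors]
      by_cases h5 : p ∈ F
      · exact Or.inl (Or.inl h5)
      by_cases h6 : p ∣ m
      · exact Or.inr ⟨(mem_Pz.1 h3).1, h6, by omega⟩
      by_cases h7 : (p : ℤ) ∣ a p
      · exact Or.inl (Or.inr ⟨h3, h7⟩)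
      · exact absurd ⟨h5, h6, h7⟩ (h4 h3)
    have hpr : ∀ p ∈ (F ∪ (Pz z).filter (fun p : ℕ => (p : ℤ) ∣ a p)) ∪ m.primeFactors, p.Prime := by
      intro p hp
      rw [mem_union, mem_union, mem_filter] at hp
      rcases hp with (h | h) | h
      · exact hFp p h
      · exact (mem_Pz.1 h.1).1
      · exact Nat.prime_of_mem_primeFactors h
    refine (prod_le_of_sub _ _ hsub2 (fun p => (1 - 1 / (p : ℝ))⁻¹) (fun p hp => one_le_inv (hpr p hp))).trans ?_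
    refine (prod_union_le _ _ (fun p => (1 - 1 / (p : ℝ))⁻¹) (fun p hp => one_le_inv (hpr p hp))).trans ?_
    rw [ratio_prod m (by omega)]
    have hr0 : 0 ≤ (m : ℝ) / (Nat.totient m : ℝ) := by positivity
    apply mul_le_mul_of_nonneg_right _ hr0
    refine (prod_union_le _ _ (fun p => (1 - 1 / (p : ℝ))⁻¹)
      (fun p hp => one_le_inv (hpr p (mem_union_left _ hp)))).trans ?_
    have e1 := inv_prod_le F hFp C₀ hF
    have e2 := inv_prod_le ((Pz z).filter (fun p : ℕ => (p : ℤ) ∣ a p))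
      (fun p hp => (mem_Pz.1 (mem_filter.1 hp).1).1) C₀ ha
    calc (∏ p ∈ F, (1 - 1 / (p : ℝ))⁻¹) * ∏ p ∈ (Pz z).filter (fun p : ℕ => (p : ℤ) ∣ a p), (1 - 1 / (p : ℝ))⁻¹
        ≤ Real.exp (2 * C₀) * Real.exp (2 * C₀) := by
          apply mul_le_mul e1 e2 _ (Real.exp_pos _).le
          apply prod_nonneg
          intro p hp
          exact zero_le_one.trans (one_le_inv (mem_Pz.1 (mem_filter.1 hp).1).1)
      _ = Real.exp (4 * C₀) := by
          rw [← Real.exp_add]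
          congr 1
          ring
  have hVw : V w ≤ c₂ / Real.log w := by
    rw [le_div_iff₀ hlw]
    exact (hV w hw2).2
  have hVz : V z ≤ c₂ / Real.log z := by
    rw [le_div_iff₀ hlz]
    exact (hV z hz).2
  have hVz0 := (V_pos z).le
  have hVw0 := (V_pos w).le
  have hr0 : 0 ≤ (m : ℝ) / (Nat.totient m : ℝ) := by positivity
  calc 2 * ((X : ℝ) * Pr) ≤ 2 * ((X : ℝ) * (V w * (V z * (Real.exp (4 * C₀) * ((m : ℝ) / (Nat.totient m : ℝ)))))) := by
        gcongr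
        refine hPrle.trans ?_
        rw [hGprod]
        gcongr
    _ ≤ 2 * ((X : ℝ) * (c₂ / Real.log w * (c₂ / Real.log z * (Real.exp (4 * C₀) * ((m : ℝ) / (Nat.totient m : ℝ)))))) := by
        gcongr
    _ = 2 * c₂ ^ 2 * Real.exp (4 * C₀) * ((m : ℝ) / (Nat.totient m : ℝ)) * X / (Real.log w * Real.log z) := by
        field_simp

end Pool.Agent.H526.FR
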